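import Pool.Agent.Helper32.UL.Basic

set_option autoImplicit false

/-!
# U2: arithmetic on head positions is computable by multihead automata
-/

namespace Pool.Agent.Helper17.UL

open Pool.Agent.Helper6

section Pre

variable {β U V : Type}

/-- a function of a single variable applied to a function -/
theorem FL.comp1 [Finite V] {h : List β → (Unit → ℕ) → ℕ} {f : List β → (V → ℕ) → ℕ}
    (hh : FL β Unit h) (hf : FL β V f) : FL β V (fun w x => h w (fun _ => f w x)) :=
  FL.comp hh (g := fun _ => f) (fun _ => hf)

/-- bounded iteration of a single value -/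
theorem FL.iter1 [Finite V] {F : List β → ℕ → (V → ℕ) → ℕ}
    (hF : FL β (Unit ⊕ V) (fun w z => F w (z (Sum.inl ())) (fun v => z (Sum.inr v))))
    {i c : List β → (V → ℕ) → ℕ} (hi : FL β V i) (hc : FL β V c) :
    FL β V (fun w x => (fun y => F w y x)^[c w x] (i w x)) := by
  have h := FL.iter (U := Unit) (V := V) (F := fun _ w z => F w (z (Sum.inl ()))
    (fun v => z (Sum.inr v))) (fun _ => hF) (init := fun _ => i) (fun _ => hi) hc ()
  refine FL.congr h ?_
  intro w x _
  have key : ∀ (n : ℕ) (y : Unit → ℕ),
      ((fun (y : Unit → ℕ) (_ : Unit) => F w (y ()) x)^[n] y) () =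
        (fun y => F w y x)^[n] (y ()) := by
    intro n
    induction n with
    | zero => intro y; rfl
    | succ n ih =>
      intro y
      rw [Function.iterate_succ_apply, Function.iterate_succ_apply, ih]
  exact (key (c w x) (fun _ => i w x)).symm

/-- weakening of the variables, for iteration bodies -/
theorem FL.inr [Finite U] [Finite V] {f : List β → (V → ℕ) → ℕ} (hf : FL β V f) :
    FL β (U ⊕ V) (fun w z => f w (fun v => z (Sum.inr v))) :=
  FL.comp hf (g := fun v _ z => z (Sum.inr v)) (fun _ => FL.proj _)

theorem FL.inl [Finite U] [Finite V] {f : List β → (V → ℕ) → ℕ} (hf : FL β V f) :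
    FL β (V ⊕ U) (fun w z => f w (fun v => z (Sum.inl v))) :=
  FL.comp hf (g := fun v _ z => z (Sum.inl v)) (fun _ => FL.proj _)

theorem FL.zero : FL β V (fun _ _ => 0) :=
  FL.congr (FL.const 0) (fun _ _ _ => (Nat.zero_min _).symm)

theorem FL.one : FL β V (fun _ _ => 1) :=
  FL.congr (FL.const 1) (fun w _ _ => (min_eq_left (by omega)).symm)

end Pre

variable {β V : Type} [Finite V] {f g : List β → (V → ℕ) → ℕ}

theorem FL.succ (hf : FL β V f) : FL β V (fun w x => min (f w x + 1) (w.length + 1)) := by
  have h : FL β Unit (fun w x => min (x () + 1) (w.length + 1)) :=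
    ⟨fun _ _ _ => min_le_right _ _, isL_mv2 _ _⟩
  exact FL.comp1 h hf

theorem FL.pred (hf : FL β V f) : FL β V (fun w x => f w x - 1) := by
  have h : FL β Unit (fun _ x => x () - 1) := by
    refine ⟨fun w x hx => by have := hx (); omega, ?_⟩
    refine IsL.congr (IsL.or (IsL.succ (Sum.inr ()) (Sum.inl ()))
      (IsL.and (IsL.isZero (Sum.inl ())) (IsL.isZero (Sum.inr ())))) ?_
    intro w z _
    simp only [Function.comp_apply]
    omega
  exact FL.comp1 h hf

theorem FL.add (hf : FL β V f) (hg : FL β V g) :
    FL β V (fun w x => min (f w x + g w x) (w.length + 1)) := by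
  refine FL.congr (FL.iter1 (F := fun w y _ => min (y + 1) (w.length + 1))
    (FL.succ (FL.proj _)) hf hg) ?_
  intro w x hx
  have key : ∀ n : ℕ, (fun y => min (y + 1) (w.length + 1))^[n] (f w x) =
      min (f w x + n) (w.length + 1) := by
    intro n
    induction n with
    | zero =>
      have := hf.bd w x hx
      simp only [Function.iterate_zero, id]
      omega
    | succ n ih =>
      rw [Function.iterate_succ_apply', ih]
      omega
  exact (key _).symm

theorem FL.sub (hf : FL β V f) (hg : FL β V g) : FL β V (fun w x => f w x - g w x) := by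
  refine FL.congr (FL.iter1 (F := fun _ y _ => y - 1) (FL.pred (FL.proj _)) hf hg) ?_
  intro w x hx
  have key : ∀ n : ℕ, (fun y => y - 1)^[n] (f w x) = f w x - n := by
    intro n
    induction n with
    | zero => rfl
    | succ n ih =>
      rw [Function.iterate_succ_apply', ih]
      omega
  exact (key _).symm

theorem isL_le (hf : FL β V f) (hg : FL β V g) : IsL β V (fun w x => f w x ≤ g w x) := by
  refine IsL.congr (isL_eq (hf.sub hg) FL.zero) ?_
  intro w x _
  omega

theorem isL_lt (hf : FL β V f) (hg : FL β V g) : IsL β V (fun w x => f w x < g w x) := by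
  refine IsL.congr (IsL.not (isL_le hg hf)) ?_
  intro w x _
  omega

theorem FL.min' (hf : FL β V f) (hg : FL β V g) : FL β V (fun w x => min (f w x) (g w x)) := by
  refine FL.congr (hf.sub (hf.sub hg)) ?_
  intro w x _
  omega

theorem min_mul_cap (a b C : ℕ) : min (min a C * b) C = min (a * b) C := by
  rcases le_total a C with h | h
  · rw [min_eq_left h]
  · rw [min_eq_right h]
    rcases Nat.eq_zero_or_pos b with rfl | hb
    · simp
    · rw [min_eq_right (Nat.le_mul_of_pos_right C hb),
        min_eq_right (h.trans (Nat.le_mul_of_pos_right a hb))]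

theorem FL.mul (hf : FL β V f) (hg : FL β V g) :
    FL β V (fun w x => min (f w x * g w x) (w.length + 1)) := by
  refine FL.congr (FL.iter1 (F := fun w y x => min (y + f w x) (w.length + 1))
    (FL.add (FL.proj _) (FL.inr hf)) FL.zero hg) ?_
  intro w x hx
  have key : ∀ n : ℕ, (fun y => min (y + f w x) (w.length + 1))^[n] 0 =
      min (f w x * n) (w.length + 1) := by
    intro n
    induction n with
    | zero =>
      simp
    | succ n ih =>
      rw [Function.iterate_succ_apply', ih, Nat.mul_succ]
      omega
  exact (key _).symm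

theorem FL.pow (hf : FL β V f) (hg : FL β V g) :
    FL β V (fun w x => min (f w x ^ g w x) (w.length + 1)) := by
  refine FL.congr (FL.iter1 (F := fun w y x => min (y * f w x) (w.length + 1))
    (FL.mul (FL.proj _) (FL.inr hf)) FL.one hg) ?_
  intro w x hx
  have key : ∀ n : ℕ, (fun y => min (y * f w x) (w.length + 1))^[n] 1 =
      min (f w x ^ n) (w.length + 1) := by
    intro n
    induction n with
    | zero =>
      simp
    | succ n ih =>
      rw [Function.iterate_succ_apply', ih, pow_succ]
      exact min_mul_cap _ _ _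
  exact (key _).symm

theorem FL.div (hf : FL β V f) (hg : FL β V g) : FL β V (fun w x => f w x / g w x) := by
  have hf' := FL.inl (U := Unit) hf
  have hg' := FL.inl (U := Unit) hg
  have ht : FL β (V ⊕ Unit) (fun _ z => z (Sum.inr ())) := FL.proj _
  have hz : FL β (V ⊕ Unit) (fun _ _ => 0) := FL.zero
  refine FL.of_unique (IsL.or (IsL.and (isL_eq hg' hz) (isL_eq ht hz))
    (IsL.and (isL_lt hz hg') (IsL.and
      (isL_lt (hf'.sub (ht.mul hg')) hg')
      (IsL.or (isL_eq ht hz) (isL_le hg' (hf'.sub (ht.pred.mul hg'))))))) ?_ ?_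
  · intro w x hx
    exact (Nat.div_le_self _ _).trans (hf.bd w x hx)
  · intro w x t hx _
    have hbd := hf.bd w x hx
    simp only [Sum.elim_inl, Sum.elim_inr]
    generalize f w x = a at hbd ⊢
    generalize g w x = b
    generalize w.length + 1 = C at hbd ⊢
    rcases Nat.eq_zero_or_pos b with rfl | hb
    · simp
    · have e1 : ∀ q, a - min (q * b) C = a - q * b := by
        intro q
        omega
      rw [e1, e1]
      constructor
      · rintro (⟨h, -⟩ | ⟨-, h1, h2⟩)
        · omega
        · symm
          apply Nat.div_eq_of_lt_le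
          · rcases h2 with rfl | h2
            · simp
            · rcases t with _ | t
              · simp
              · rw [Nat.add_sub_cancel] at h2
                rw [Nat.succ_mul]
                omega
          · rw [Nat.succ_mul]
            omega
      · rintro rfl
        right
        refine ⟨hb, ?_, ?_⟩
        · have h1 := Nat.lt_div_mul_add hb (a := a)
          omega
        · rcases Nat.eq_zero_or_pos (a / b) with h | h
          · exact Or.inl h
          · right
            have h1 := Nat.div_mul_le_self a b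
            obtain ⟨q, hq⟩ : ∃ q, a / b = q + 1 := ⟨a / b - 1, by omega⟩
            rw [hq] at h1 ⊢
            rw [Nat.succ_mul] at h1
            rw [Nat.add_sub_cancel]
            omega

theorem FL.mod (hf : FL β V f) (hg : FL β V g) : FL β V (fun w x => f w x % g w x) := by
  refine FL.congr (hf.sub ((hf.div hg).mul hg)) ?_
  intro w x hx
  have hbd := hf.bd w x hx
  have h1 := Nat.div_add_mod' (f w x) (g w x)
  omega

theorem pow_cap (a q C : ℕ) : min (min a C ^ q) C = min (a ^ q) C := by
  rcases le_total a C with h | h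
  · rw [min_eq_left h]
  · rw [min_eq_right h]
    rcases Nat.eq_zero_or_pos q with rfl | hq
    · simp
    · rw [min_eq_right (Nat.le_self_pow hq.ne' C),
        min_eq_right (h.trans (Nat.le_self_pow hq.ne' a))]

theorem one_lt_div_iff (a q C : ℕ) (ha : a ≤ C) :
    1 < a / min (2 ^ q) C ↔ 2 ^ (q + 1) ≤ a := by
  have h2 : 0 < 2 ^ q := Nat.pow_pos (by norm_num)
  rcases le_total (2 ^ q) C with h | h
  · rw [min_eq_left h, Nat.lt_iff_add_one_le, Nat.le_div_iff_mul_le h2, pow_succ]
    omega
  · rw [min_eq_right h]
    constructor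
    · intro h1
      exfalso
      have h3 : a / C ≤ 1 := by
        rcases Nat.eq_zero_or_pos C with rfl | hC
        · simp
        · exact (Nat.div_le_div_right ha).trans (by rw [Nat.div_self hC])
      omega
    · intro h1
      rw [pow_succ] at h1
      omega

theorem FL.pow2 (hf : FL β V f) : FL β V (fun w x => min (2 ^ f w x) (w.length + 1)) := by
  refine FL.congr (FL.pow (FL.const 2) hf) ?_
  intro w x _
  exact (pow_cap _ _ _).symm

theorem FL.log2 (hf : FL β V f) : FL β V (fun w x => Nat.log 2 (f w x)) := by
  have hf' := FL.inl (U := Unit) hf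
  have ht : FL β (V ⊕ Unit) (fun _ z => z (Sum.inr ())) := FL.proj _
  have hz : FL β (V ⊕ Unit) (fun _ _ => 0) := FL.zero
  have ho : FL β (V ⊕ Unit) (fun _ _ => 1) := FL.one
  refine FL.of_unique (IsL.and (IsL.or (isL_eq ht hz) (isL_lt ho (hf'.div ht.pred.pow2)))
    (IsL.not (isL_lt ho (hf'.div ht.pow2)))) ?_ ?_
  · intro w x hx
    exact (Nat.log_le_self _ _).trans (hf.bd w x hx)
  · intro w x t hx _
    have hbd := hf.bd w x hx
    simp only [Sum.elim_inl, Sum.elim_inr]
    rw [one_lt_div_iff _ _ _ hbd, one_lt_div_iff _ _ _ hbd]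
    generalize f w x = a at hbd ⊢
    rcases t with _ | t
    · simp only [true_or, true_and, zero_add, pow_one]
      rw [eq_comm, Nat.log_eq_zero_iff]
      omega
    · rw [Nat.add_sub_cancel, @eq_comm _ (t + 1) (Nat.log 2 a),
        Nat.log_eq_iff (Or.inl (Nat.succ_ne_zero t))]
      constructor
      · rintro ⟨h1 | h1, h2⟩
        · omega
        · exact ⟨h1, by omega⟩
      · rintro ⟨h1, h2⟩
        exact ⟨Or.inr h1, by omega⟩

/-- `f` is prime -/
theorem isL_prime (hf : FL β V f) : IsL β V (fun w x => (f w x).Prime) := by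
  have hf' := FL.inl (U := Unit) hf
  have ht : FL β (V ⊕ Unit) (fun _ z => z (Sum.inr ())) := FL.proj _
  have hz : FL β (V ⊕ Unit) (fun _ _ => 0) := FL.zero
  have ho : FL β (V ⊕ Unit) (fun _ _ => 1) := FL.one
  have hex : IsL β V (fun w x => ∃ t ≤ w.length + 1,
      (1 < t ∧ t < f w x ∧ f w x % t = 0)) := by
    refine isL_ex1 (IsL.and (isL_lt ho ht) (IsL.and (isL_lt ht hf')
      (isL_eq (hf'.mod ht) hz))) ?_
    intro w x _
    rfl
  refine IsL.congr (IsL.and (isL_lt FL.one hf) (IsL.not hex)) ?_
  intro w x hx
  have hbd := hf.bd w x hx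
  rw [Nat.prime_def_lt']
  constructor
  · rintro ⟨h1, h2⟩
    refine ⟨h1, ?_⟩
    rintro ⟨t, -, h3, h4, h5⟩
    exact h2 t h3 h4 (Nat.dvd_of_mod_eq_zero h5)
  · rintro ⟨h1, h2⟩
    refine ⟨h1, ?_⟩
    intro m h3 h4 h5
    exact h2 ⟨m, by omega, h3, h4, Nat.mod_eq_zero_of_dvd h5⟩

end Pool.Agent.Helper17.UL
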