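import Pool.Agent.Helper17.UL.MachN
import Pool.Agent.Helper68.UL.Arith

set_option autoImplicit false

/-!
# U8b: the one-step function of the machine is computable by multihead automata
-/

namespace Pool.Agent.Helper17.UL

open Pool.Agent.Helper17.SL Pool.Agent.Helper6

section Tab

variable {β V X Y : Type}

theorem isL_ptab [Finite X] (c : X → Y) (g : X → ℕ) {p : List β → (V → ℕ) → Y}
    (hp : ∀ x, IsL β V (fun w z => c x = p w z)) (m : ℕ) :
    IsL β V (fun w z => ptab c g (p w z) = m) := by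
  refine IsL.congr (IsL.or (IsL.bigOr fun x => IsL.and (hp x) (IsL.const (ptab c g (c x) = m)))
    (IsL.and (IsL.not (IsL.bigOr hp)) (IsL.const (0 = m)))) ?_
  intro w z _
  by_cases h : ∃ x, c x = p w z
  · obtain ⟨x, hx⟩ := h
    constructor
    · intro h1
      exact Or.inl ⟨x, hx, by rw [hx]; exact h1⟩
    · rintro (⟨y, hy, h1⟩ | ⟨h1, -⟩)
      · rw [← hy]; exact h1
      · exact absurd ⟨x, hx⟩ h1
  · have h0 : ptab c g (p w z) = 0 := by
      unfold ptab
      rw [dif_neg h]
    rw [h0]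
    constructor
    · intro h1
      exact Or.inr ⟨h, h1⟩
    · rintro (⟨y, hy, -⟩ | ⟨-, h1⟩)
      · exact absurd ⟨y, hy⟩ h
      · exact h1

theorem FL.ptab [Finite X] [Finite V] (c : X → Y) (g : X → ℕ) {p : List β → (V → ℕ) → Y}
    (hp : ∀ x, IsL β V (fun w z => c x = p w z)) :
    FL β V (fun w z => min (UL.ptab c g (p w z)) (w.length + 1)) := by
  have hp' : ∀ x, IsL β (V ⊕ Unit) (fun w z => c x = p w (z ∘ Sum.inl)) := fun x =>
    IsL.lift (hp x) (Sum.inl : V → V ⊕ Unit) Sum.inl_injective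
  refine FL.of_unique (IsL.or (IsL.bigOr fun x => IsL.and (hp' x)
    (FL.const (β := β) (V := V) (UL.ptab c g (c x))).isL)
    (IsL.and (IsL.not (IsL.bigOr hp')) (IsL.isZero (Sum.inr ())))) ?_ ?_
  · intro w x _
    exact min_le_right _ _
  · intro w z t _ _
    by_cases h : ∃ x, c x = p w z
    · obtain ⟨x, hx⟩ := h
      constructor
      · rintro (⟨y, hy, h1⟩ | ⟨h1, -⟩)
        · have hy' : c y = p w z := hy
          rw [← hy']
          exact h1
        · exact absurd ⟨x, hx⟩ h1
      · intro h1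
        refine Or.inl ⟨x, hx, ?_⟩
        rw [hx]
        exact h1
    · have h0 : UL.ptab c g (p w z) = 0 := by
        unfold UL.ptab
        rw [dif_neg h]
      rw [h0, Nat.zero_min]
      constructor
      · rintro (⟨y, hy, -⟩ | ⟨-, h1⟩)
        · exact absurd ⟨y, hy⟩ h
        · exact h1
      · intro h1
        exact Or.inr ⟨h, h1⟩

end Tab

section

variable {α Q Γ : Type} [Fintype α] [Fintype Q] [Fintype Γ] {k : ℕ}

/-- the variables: entry value and current value -/
abbrev VV (k : ℕ) : Type := Fin (k + 4 + 2) ⊕ Fin (k + 4 + 2)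

/-- the letters under the heads -/
noncomputable def ltr (w : List (Option α)) (z : VV k → ℕ) : Fin k → ℕ :=
  fun j => oc ((w[z (Sum.inr (pj j)) - 1]?).join)

theorem isL_dcode (x : Q × (Fin k → Bool × Option α) × Option Γ) :
    IsL (Option α) (VV k) (fun w z => dcode x = dval (ltr w z) (z ∘ Sum.inr)) := by
  have h : ∀ d : DI k, IsL (Option α) (VV k)
      (fun w z => dcode x d = dval (ltr w z) (z ∘ Sum.inr) d) := by
    rintro ((_ | _) | (j | j))
    · refine IsL.congr (isL_const (fc x.1) (Sum.inr ⟨3, by omega⟩)) ?_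
      intro w z _
      exact eq_comm
    · refine IsL.congr (isL_const (oc x.2.2) (Sum.inr ⟨5, by omega⟩)) ?_
      intro w z _
      exact eq_comm
    · refine IsL.congr (IsL.iff (IsL.const ((x.2.1 j).1 = true))
        (IsL.isZero (Sum.inr (pj j)))) ?_
      intro w z _
      simp only [dcode, dval, Function.comp_apply]
      by_cases h1 : (x.2.1 j).1 = true <;> by_cases h2 : z (Sum.inr (pj j)) = 0 <;> simp [h1, h2]
    · exact IsL.sym (Sum.inr (pj j)) (fun s => oc (x.2.1 j).2 = oc (s.2.join))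
  refine IsL.congr (IsL.bigAnd h) ?_
  intro w z _
  exact funext_iff

omit [Fintype α] in
theorem isL_var {V X : Type} [Finite V] [Fintype X] (x : X) (v : V) :
    IsL (Option α) V (fun _ z => fc x = z v) := by
  refine IsL.congr (isL_const (fc x) v) ?_
  intro w z _
  exact eq_comm

omit [Fintype α] in
theorem isL_nPend (R : ℕ) [Fintype (Pend Γ R)] :
    IsL (Option α) (VV k) (fun _ z => nPend Γ R (z ∘ Sum.inr)) :=
  IsL.not (isL_ptab _ _ (fun x => isL_var x (Sum.inr ⟨4, by omega⟩ : VV k)) 0)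

omit [Fintype α] in
theorem isL_nHalt (F : Q → Bool) {T : List (Option α) → ℕ}
    (hT : FL (Option α) (VV k) (fun w _ => T w)) :
    IsL (Option α) (VV k) (fun w z => nHalt F (T w) (z ∘ Sum.inr)) :=
  IsL.or (isL_ptab _ _ (fun x => isL_var x (Sum.inr ⟨3, by omega⟩ : VV k)) 1)
    (isL_eq (FL.proj (Sum.inr ⟨2, by omega⟩ : VV k)) hT)

omit [Fintype α] in
theorem isL_nFlat : IsL (Option α) (VV k) (fun _ z => nFlat (z ∘ Sum.inr)) :=
  IsL.or (IsL.isZero _) (IsL.isZero _)

omit [Fintype α] in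
theorem isL_nPop (F : Q → Bool) (R : ℕ) [Fintype (Pend Γ R)] {T : List (Option α) → ℕ}
    (hT : FL (Option α) (VV k) (fun w _ => T w)) :
    IsL (Option α) (VV k)
      (fun w z => nPop F Γ R (T w) (z ∘ Sum.inl) (z ∘ Sum.inr)) :=
  IsL.and (IsL.not (isL_nPend R)) (IsL.and (IsL.not (isL_nHalt F hT)) (IsL.and
    (IsL.not isL_nFlat) (isL_le (FL.proj (Sum.inr 1 : VV k)) (FL.proj (Sum.inl 1 : VV k)))))

/-- a constant function of the position -/
theorem FL.ofEmpty {β V : Type} [Finite V] {N : List β → ℕ} (hN : FL β Empty (fun w _ => N w)) :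
    FL β V (fun w _ => N w) :=
  FL.comp (V := V) hN (g := fun u => u.elim) (fun u => u.elim)

open Classical in
theorem newc_FL (δ : PDTrans α Q Γ k) (F : Q → Bool) (R : ℕ) [Fintype (Pend Γ R)]
    {N T n : List (Option α) → ℕ} (hN : FL (Option α) (VV k) (fun w _ => N w))
    (hT : FL (Option α) (VV k) (fun w _ => T w)) (hn : FL (Option α) (VV k) (fun w _ => n w))
    (i : Fin (k + 4 + 2)) :
    FL (Option α) (VV k) (fun w z => min (newc δ F R (N w) (T w) (n w) (ltr w z) (z ∘ Sum.inl)
      (z ∘ Sum.inr) i) (w.length + 1)) := by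
  have hPe : IsL (Option α) (VV k) (fun _ z => nPend Γ R (z ∘ Sum.inr)) := isL_nPend R
  have hHa := isL_nHalt (k := k) F hT
  have hFl : IsL (Option α) (VV k) (fun _ z => nFlat (z ∘ Sum.inr)) := isL_nFlat
  have hx : ∀ j : Fin (k + 4 + 2), FL (Option α) (VV k) (fun _ z => z (Sum.inr j)) :=
    fun j => FL.proj _
  have hg : ∀ j : Fin (k + 4 + 2), FL (Option α) (VV k) (fun _ z => z (Sum.inl j)) :=
    fun j => FL.proj _
  by_cases h6 : 6 ≤ (i : ℕ)
  · have ht := fun m => isL_ptab (β := Option α) (V := VV k)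
      (dcode (α := α) (Q := Q) (Γ := Γ) (k := k))
      (fun x => ((δ x.1 x.2.1 x.2.2).2.1 ⟨i - 6, by omega⟩ : ℕ)) isL_dcode m
    refine FL.congr (FL.ite (IsL.or hPe hHa) (hx i) (FL.min' (FL.ite (ht 0) (hx i).pred
      (FL.ite (ht 1) (hx i) (FL.min' (hx i).succ hn.succ))) hn.succ)) ?_
    intro w z hz
    have h1 := hz (Sum.inr i)
    simp only [newc, dif_pos h6, mvpN, Function.comp_apply]
    have e : ptab (dcode (α := α) (Q := Q) (Γ := Γ) (k := k))
        (fun x => ((δ x.1 x.2.1 x.2.2).2.1 ⟨i - 6, by omega⟩ : ℕ))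
        (dval (ltr w z) (z ∘ Sum.inr)) =
        tabM δ ⟨i - 6, by omega⟩ (dval (ltr w z) (z ∘ Sum.inr)) := rfl
    rw [e]
    generalize tabM δ ⟨i - 6, by omega⟩ (dval (ltr w z) (z ∘ Sum.inr)) = d
    by_cases hc : nPend Γ R (z ∘ Sum.inr) ∨ nHalt F (T w) (z ∘ Sum.inr)
    · rw [if_pos hc, if_pos hc]
      omega
    · rw [if_neg hc, if_neg hc]
      by_cases e0 : d = 0
      · rw [if_pos e0, if_pos e0]
        omega
      · rw [if_neg e0, if_neg e0]
        by_cases e1 : d = 1
        · rw [if_pos e1, if_pos e1]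
          omega
        · rw [if_neg e1, if_neg e1]
          omega
  by_cases h0 : (i : ℕ) = 0
  · refine FL.congr (FL.min' (hx 0).succ hN) ?_
    intro w z hz
    have h1 := hN.bd w z hz
    simp only [newc, dif_neg h6, if_pos h0, Function.comp_apply]
    omega
  by_cases h1 : (i : ℕ) = 1
  · refine FL.congr (FL.ite hPe (FL.min' (hx 1).succ hN) (FL.ite (IsL.or hHa hFl) (hx 1)
      (FL.min' (hx 1).pred hN))) ?_
    intro w z hz
    have h2 := hN.bd w z hz
    have h3 := hz (Sum.inr 1)
    simp only [newc, dif_neg h6, if_neg h0, if_pos h1, Function.comp_apply]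
    split_ifs <;> omega
  by_cases h2 : (i : ℕ) = 2
  · refine FL.congr (FL.ite (IsL.or hPe hHa) (hx i) (FL.min' (hx i).succ hT)) ?_
    intro w z hz
    have h3 := hT.bd w z hz
    have h4 := hz (Sum.inr i)
    simp only [newc, dif_neg h6, if_neg h0, if_neg h1, if_pos h2, Function.comp_apply]
    split_ifs <;> omega
  by_cases h3 : (i : ℕ) = 3
  · refine FL.congr (FL.ite (IsL.or hPe hHa) (hx i) (FL.ptab (β := Option α) (V := VV k)
      (dcode (α := α) (Q := Q) (Γ := Γ) (k := k))
      (fun x => fc (δ x.1 x.2.1 x.2.2).1) isL_dcode)) ?_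
    intro w z hz
    have h4 := hz (Sum.inr i)
    simp only [newc, dif_neg h6, if_neg h0, if_neg h1, if_neg h2, if_pos h3,
      Function.comp_apply, tabQ]
    split_ifs <;> omega
  by_cases h4 : (i : ℕ) = 4
  · refine FL.congr (FL.ite hPe (FL.ptab (β := Option α) (V := VV k)
      (fun p : Pend Γ R => fc p) (fun p => fc (⟨p.1.tail, by
        have := p.2
        simp only [List.length_tail]
        omega⟩ : Pend Γ R)) (fun p => isL_var p (Sum.inr i : VV k)))
      (FL.ite hHa (hx i) (FL.ptab (β := Option α) (V := VV k)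
      (dcode (α := α) (Q := Q) (Γ := Γ) (k := k))
      (fun x => fc (⟨((δ x.1 x.2.1 x.2.2).2.2.reverse).take R, by simp⟩ : Pend Γ R))
      isL_dcode))) ?_
    intro w z hz
    have h5 := hz (Sum.inr i)
    simp only [newc, dif_neg h6, if_neg h0, if_neg h1, if_neg h2, if_neg h3, if_pos h4,
      Function.comp_apply, tabT, tabP]
    split_ifs <;> omega
  · have h46 : 4 < k + 4 + 2 := by omega
    have hH : FL (Option α) (VV k) (fun w z => min (UL.ptab (fun p : Pend Γ R => fc p)
        (fun p => oc p.1.head?) (z (Sum.inr ⟨4, h46⟩))) (w.length + 1)) :=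
      FL.ptab (β := Option α) (V := VV k) (fun p : Pend Γ R => fc p) (fun p => oc p.1.head?)
        (p := fun _ z => z (Sum.inr ⟨4, h46⟩)) (fun p => isL_var p (Sum.inr ⟨4, h46⟩ : VV k))
    refine FL.congr (FL.ite hPe hH (FL.ite (IsL.or hHa hFl) (hx i) (hg i))) ?_
    intro w z hz
    have h5 := hz (Sum.inr i)
    have h7 := hz (Sum.inl i)
    simp only [newc, dif_neg h6, if_neg h0, if_neg h1, if_neg h2, if_neg h3, if_neg h4,
      Function.comp_apply, tabH]
    split_ifs <;> omega

theorem phi0_FL (δ : PDTrans α Q Γ k) (F : Q → Bool) (R : ℕ) [Fintype (Pend Γ R)]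
    {N T n : List (Option α) → ℕ} (hN : FL (Option α) Empty (fun w _ => N w))
    (hT : FL (Option α) Empty (fun w _ => T w)) (hn : FL (Option α) Empty (fun w _ => n w))
    (q : RI (k + 4)) :
    FL (Option α) (Fin (k + 4 + 2) ⊕ Fin (k + 4 + 2)) (fun w z =>
      min (phi0num δ F R (N w) (T w) (n w)
        (fun j => oc ((w[z (Sum.inr (pj j)) - 1]?).join)) (z ∘ Sum.inl) (z ∘ Sum.inr) q)
        (w.length + 1)) := by
  classical
  have hN' : FL (Option α) (VV k) (fun w _ => N w) := FL.ofEmpty hN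
  have hT' : FL (Option α) (VV k) (fun w _ => T w) := FL.ofEmpty hT
  have hn' : FL (Option α) (VV k) (fun w _ => n w) := FL.ofEmpty hn
  have hP := isL_nPop (Γ := Γ) (k := k) F R hT'
  rcases q with _ | i | i
  · refine FL.congr (FL.ite hP FL.one (FL.const 2)) ?_
    intro w z _
    simp only [phi0num]
    split_ifs <;> omega
  · refine FL.congr (FL.ite hP (FL.proj (Sum.inr i)) (newc_FL δ F R hN' hT' hn' i)) ?_
    intro w z hz
    have h1 := hz (Sum.inr i)
    simp only [phi0num, Function.comp_apply]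
    split_ifs
    · omega
    · rfl
  · refine FL.congr (FL.ite hP FL.zero (FL.proj (Sum.inr i))) ?_
    intro w z hz
    have h1 := hz (Sum.inr i)
    simp only [phi0num, Function.comp_apply]
    split_ifs <;> omega

end

end Pool.Agent.Helper17.UL
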