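import Pool.Agent.Helper17.UL.EvDefs
import Pool.Agent.Helper68.UL.Phi0FL

set_option autoImplicit false

/-!
# E2a: operations on blocks (numbers in base `f`) are computable by multihead automata
-/

namespace Pool.Agent.Helper17.UL

open Pool.Agent.Helper17.SL Pool.Agent.Helper6

section Sum

variable {β V : Type} [Finite V]

theorem capSum (L : ℕ) (d : ℕ → ℕ) (n : ℕ) :
    (Nat.rec (motive := fun _ => ℕ) 0 (fun i acc => min (acc + min (d i) L) L) n : ℕ) =
      min (∑ i ∈ Finset.range n, d i) L := by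
  induction n with
  | zero => simp
  | succ n ih =>
    rw [Finset.sum_range_succ]
    change min ((Nat.rec (motive := fun _ => ℕ) 0
      (fun i acc => min (acc + min (d i) L) L) n : ℕ) + min (d n) L) L = _
    rw [ih]
    omega

/-- bounded sums -/
theorem FL.sum {d : List β → (V → ℕ) → ℕ → ℕ}
    (hd : FL β (V ⊕ Unit) (fun w z => min (d w (z ∘ Sum.inl) (z (Sum.inr ()))) (w.length + 1)))
    {c : List β → (V → ℕ) → ℕ} (hc : FL β V c) :
    FL β V (fun w x => min (∑ i ∈ Finset.range (c w x), d w x i) (w.length + 1)) := by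
  have hF : FL β (Unit ⊕ (V ⊕ Unit)) (fun w z => min (z (Sum.inl ()) +
      min (d w (fun v => z (Sum.inr (Sum.inl v))) (z (Sum.inr (Sum.inr ())))) (w.length + 1))
      (w.length + 1)) :=
    FL.add (FL.proj _) (FL.comp hd (g := fun s _ z => z (Sum.inr s)) (fun _ => FL.proj _))
  have h := FL.iterIdx (U := Unit) (V := V) (F := fun _ w z => min (z (Sum.inl ()) +
      min (d w (fun v => z (Sum.inr (Sum.inl v))) (z (Sum.inr (Sum.inr ())))) (w.length + 1))
      (w.length + 1)) (fun _ => hF) (init := fun _ _ _ => 0) (fun _ => FL.zero) hc ()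
  refine FL.congr h ?_
  intro w x _
  rw [← capSum]
  have key : ∀ n : ℕ, (Nat.rec (motive := fun _ => Unit → ℕ) (fun _ => 0)
      (fun i y _ => min (y () + min (d w x i) (w.length + 1)) (w.length + 1)) n) () =
      (Nat.rec (motive := fun _ => ℕ) 0
        (fun i acc => min (acc + min (d w x i) (w.length + 1)) (w.length + 1)) n : ℕ) := by
    intro n
    induction n with
    | zero => rfl
    | succ n ih =>
      change min ((Nat.rec (motive := fun _ => Unit → ℕ) (fun _ => 0)
        (fun i y _ => min (y () + min (d w x i) (w.length + 1)) (w.length + 1)) n) () +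
        min (d w x n) (w.length + 1)) (w.length + 1) = _
      rw [ih]
  exact (key _).symm

end Sum

section Digits

/-- sums in base `f` -/
theorem sum_lt_pow {f : ℕ} (d : ℕ → ℕ) (hd : ∀ i, d i < f) (n : ℕ) :
    ∑ i ∈ Finset.range n, d i * f ^ i < f ^ n := by
  induction n with
  | zero => simp
  | succ n ih =>
    rw [Finset.sum_range_succ, pow_succ]
    have h := hd n
    have h1 : d n * f ^ n + f ^ n ≤ f ^ n * f := by
      calc d n * f ^ n + f ^ n = (d n + 1) * f ^ n := by ring
        _ ≤ f * f ^ n := Nat.mul_le_mul_right _ h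
        _ = f ^ n * f := by ring
    omega

theorem digit_sum {f : ℕ} (d : ℕ → ℕ) (hd : ∀ i, d i < f) (n j : ℕ) (hj : j < n) :
    (∑ i ∈ Finset.range n, d i * f ^ i) / f ^ j % f = d j := by
  have hf : 0 < f := lt_of_le_of_lt (Nat.zero_le _) (hd 0)
  induction n with
  | zero => omega
  | succ n ih =>
    rw [Finset.sum_range_succ]
    rcases Nat.lt_succ_iff_lt_or_eq.1 hj with h | rfl
    · obtain ⟨k, rfl⟩ : ∃ k, n = j + 1 + k := ⟨n - (j + 1), by omega⟩
      have e : d (j + 1 + k) * f ^ (j + 1 + k) = f ^ j * (f * (d (j + 1 + k) * f ^ k)) := by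
        rw [pow_add, pow_add, pow_one]
        ring
      rw [e, Nat.add_mul_div_left _ _ (Nat.pow_pos hf), Nat.add_mul_mod_self_left]
      exact ih h
    · rw [Nat.add_mul_div_right _ _ (Nat.pow_pos hf), Nat.div_eq_of_lt (sum_lt_pow d hd j),
        zero_add, Nat.mod_eq_of_lt (hd j)]

/-- the digits of a block, extended by zero -/
def dgt {f b : ℕ} (x : Blk (ZMod f) b) (i : ℕ) : ℕ := if h : i < b then (x ⟨i, h⟩).val else 0

theorem dgt_lt {f b : ℕ} (hf : 0 < f) (x : Blk (ZMod f) b) (i : ℕ) : dgt x i < f := by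
  have : NeZero f := ⟨hf.ne'⟩
  unfold dgt
  split_ifs
  · exact ZMod.val_lt _
  · exact hf

theorem blkNum_eq {f b : ℕ} (x : Blk (ZMod f) b) :
    blkNum x = ∑ i ∈ Finset.range b, dgt x i * f ^ i := by
  rw [Finset.sum_range, blkNum]
  refine Finset.sum_congr rfl fun i _ => ?_
  rw [dgt, dif_pos i.2]

theorem blkNum_lt {f b : ℕ} (hf : 0 < f) (x : Blk (ZMod f) b) : blkNum x < f ^ b := by
  rw [blkNum_eq]
  exact sum_lt_pow _ (dgt_lt hf x) b

theorem digit_blkNum {f b : ℕ} (hf : 0 < f) (x : Blk (ZMod f) b) (i : ℕ) (hi : i < b) :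
    blkNum x / f ^ i % f = (x ⟨i, hi⟩).val := by
  rw [blkNum_eq, digit_sum _ (dgt_lt hf x) b i hi, dgt, dif_pos hi]

/-- the bits below `b` determine a number below `2 ^ b` -/
theorem sum_bits (v b : ℕ) (hv : v < 2 ^ b) :
    ∑ i ∈ Finset.range b, v / 2 ^ i % 2 * 2 ^ i = v := by
  have key : ∀ n, ∑ i ∈ Finset.range n, v / 2 ^ i % 2 * 2 ^ i = v % 2 ^ n := by
    intro n
    induction n with
    | zero => simp [Nat.mod_one]
    | succ n ih =>
      rw [Finset.sum_range_succ, ih, pow_succ, Nat.mod_mul]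
      ring
  rw [key, Nat.mod_eq_of_lt hv]

end Digits

section Ops

variable {β : Type} {f b : List β → ℕ}

/-- digit, with caps -/
def dgC (L f i X : ℕ) : ℕ := X / min (f ^ i) L % f

theorem dgC_eq {L f i X : ℕ} (h : f ^ i ≤ L) : dgC L f i X = X / f ^ i % f := by
  rw [dgC, min_eq_left h]

theorem dgC_FL {V : Type} [Finite V] {F I X : List β → (V → ℕ) → ℕ} (hF : FL β V F)
    (hI : FL β V I) (hX : FL β V X) :
    FL β V (fun w z => dgC (w.length + 1) (F w z) (I w z) (X w z)) :=
  FL.mod (FL.div hX (FL.pow hF hI)) hF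

/-- a digit of the linear combination, with caps -/
def linC (L f X c Y i : ℕ) : ℕ :=
  min (min (dgC L f i X + min (c * dgC L f i Y) L) L % f * min (f ^ i) L) L

theorem lin_FL (hf : FL β Empty (fun w _ => f w)) (hb : FL β Empty (fun w _ => b w)) :
    ∃ g : List β → ℕ → ℕ → ℕ → ℕ,
      FL β (Fin 3) (fun w z => g w (z 0) (z 1) (z 2)) ∧
      ∀ w, LongFor w.length (f w) (b w) → ∀ (x y : Blk (ZMod (f w)) (b w)) (c : ZMod (f w)),
        g w (blkNum x) c.val (blkNum y) = blkNum (x + c • y) := by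
  refine ⟨fun w X c Y => min (∑ i ∈ Finset.range (b w), linC (w.length + 1) (f w) X c Y i)
    (w.length + 1), ?_, ?_⟩
  · refine FL.sum (d := fun w z i => linC (w.length + 1) (f w) (z 0) (z 1) (z 2) i) ?_
      (FL.ofEmpty hb)
    have hF : FL β (Fin 3 ⊕ Unit) (fun w _ => f w) := FL.ofEmpty hf
    have hI : FL β (Fin 3 ⊕ Unit) (fun _ z => z (Sum.inr ())) := FL.proj _
    have hX : FL β (Fin 3 ⊕ Unit) (fun _ z => z (Sum.inl 0)) := FL.proj _
    have hc : FL β (Fin 3 ⊕ Unit) (fun _ z => z (Sum.inl 1)) := FL.proj _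
    have hY : FL β (Fin 3 ⊕ Unit) (fun _ z => z (Sum.inl 2)) := FL.proj _
    refine FL.congr (FL.mul (FL.mod (FL.add (dgC_FL hF hI hX) (FL.mul hc (dgC_FL hF hI hY))) hF)
      (FL.pow hF hI)) ?_
    intro w z _
    simp only [linC, Function.comp_apply]
    omega
  · intro w hw x y c
    have hpr := hw.pr
    have hf0 : 0 < f w := hpr.pos
    have : NeZero (f w) := ⟨hf0.ne'⟩
    have hterm : ∀ i ∈ Finset.range (b w), linC (w.length + 1) (f w) (blkNum x) c.val (blkNum y) i
        = dgt (x + c • y) i * f w ^ i := by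
      intro i hi
      rw [Finset.mem_range] at hi
      have h1 : f w ^ i ≤ w.length + 1 :=
        ((Nat.pow_le_pow_right hf0 hi.le).trans hw.fb).trans (Nat.le_succ _)
      have hx := digit_blkNum hf0 x i hi
      have hy := digit_blkNum hf0 y i hi
      rw [linC, dgC_eq h1, dgC_eq h1, hx, hy, min_eq_left h1]
      have hxl : (x ⟨i, hi⟩).val < f w := ZMod.val_lt _
      have hyl : (y ⟨i, hi⟩).val < f w := ZMod.val_lt _
      have hcl : c.val < f w := ZMod.val_lt _
      have hff := hw.ff
      rw [sq] at hff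
      have h2 : c.val * (y ⟨i, hi⟩).val + f w ≤ f w * f w := by
        have h3 : c.val * (y ⟨i, hi⟩).val ≤ (f w - 1) * f w :=
          Nat.mul_le_mul (by omega) hyl.le
        have h4 : (f w - 1) * f w + f w = f w * f w := by
          obtain ⟨m, hm⟩ : ∃ m, f w = m + 1 := ⟨f w - 1, by omega⟩
          rw [hm, Nat.add_sub_cancel]
          ring
        omega
      rw [min_eq_left (by omega : c.val * (y ⟨i, hi⟩).val ≤ w.length + 1),
        min_eq_left (by omega : (x ⟨i, hi⟩).val + c.val * (y ⟨i, hi⟩).val ≤ w.length + 1)]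
      have h5 : ((x ⟨i, hi⟩).val + c.val * (y ⟨i, hi⟩).val) % f w = dgt (x + c • y) i := by
        rw [dgt, dif_pos hi, Pi.add_apply, Pi.smul_apply, smul_eq_mul, ZMod.val_add,
          ZMod.val_mul, Nat.add_mod_mod]
      rw [h5]
      have h6 : dgt (x + c • y) i * f w ^ i ≤ w.length + 1 := by
        have h7 := dgt_lt hf0 (x + c • y) i
        calc dgt (x + c • y) i * f w ^ i ≤ f w * f w ^ i := Nat.mul_le_mul_right _ h7.le
          _ = f w ^ (i + 1) := by ring
          _ ≤ f w ^ b w := Nat.pow_le_pow_right hf0 hi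
          _ ≤ w.length + 1 := hw.fb.trans (Nat.le_succ _)
      exact min_eq_left h6
    change min (∑ i ∈ Finset.range (b w),
      linC (w.length + 1) (f w) (blkNum x) c.val (blkNum y) i) (w.length + 1) = _
    rw [Finset.sum_congr rfl hterm, ← blkNum_eq]
    have h8 := blkNum_lt hf0 (x + c • y)
    have h9 := hw.fb
    exact min_eq_left (by omega)

theorem bits_FL (hf : FL β Empty (fun w _ => f w)) (hb : FL β Empty (fun w _ => b w)) :
    ∃ g : List β → ℕ → ℕ, FL β Unit (fun w z => g w (z ())) ∧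
      ∀ w, LongFor w.length (f w) (b w) → ∀ v ≤ w.length + 1,
        g w v = blkNum (nb (f w) (b w) v) := by
  refine ⟨fun w v => min (∑ i ∈ Finset.range (b w), min (dgC (w.length + 1)
    (min 2 (w.length + 1)) i v * min (f w ^ i) (w.length + 1)) (w.length + 1))
    (w.length + 1), ?_, ?_⟩
  · refine FL.sum (d := fun w z i => min (dgC (w.length + 1)
      (min 2 (w.length + 1)) i (z ()) * min (f w ^ i) (w.length + 1)) (w.length + 1)) ?_
      (FL.ofEmpty hb)
    have hF : FL β (Unit ⊕ Unit) (fun w _ => f w) := FL.ofEmpty hf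
    have hI : FL β (Unit ⊕ Unit) (fun _ z => z (Sum.inr ())) := FL.proj _
    have hv : FL β (Unit ⊕ Unit) (fun _ z => z (Sum.inl ())) := FL.proj _
    refine FL.congr (FL.mul (dgC_FL (FL.const 2) hI hv) (FL.pow hF hI)) ?_
    intro w z _
    simp only [Function.comp_apply]
    omega
  · intro w hw v _
    have hpr := hw.pr
    have hf0 : 0 < f w := hpr.pos
    have hf2 : 2 ≤ f w := hpr.two_le
    have : NeZero (f w) := ⟨hf0.ne'⟩
    have hlen : 2 ≤ w.length + 1 := by
      have h1 := hw.ff
      nlinarith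
    have hterm : ∀ i ∈ Finset.range (b w), min (dgC (w.length + 1)
        (min 2 (w.length + 1)) i v * min (f w ^ i) (w.length + 1)) (w.length + 1)
        = dgt (nb (f w) (b w) v) i * f w ^ i := by
      intro i hi
      rw [Finset.mem_range] at hi
      have h1 : f w ^ i ≤ w.length + 1 :=
        ((Nat.pow_le_pow_right hf0 hi.le).trans hw.fb).trans (Nat.le_succ _)
      have h2 : 2 ^ i ≤ w.length + 1 :=
        ((Nat.pow_le_pow_right (by norm_num) (by omega : i ≤ 2 * b w)).trans hw.bb).trans
          (Nat.le_succ _)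
      rw [min_eq_left hlen, dgC_eq h2, min_eq_left h1]
      have h5 : v / 2 ^ i % 2 = dgt (nb (f w) (b w) v) i := by
        rw [dgt, dif_pos hi, nb, ZMod.val_natCast, Nat.mod_eq_of_lt
          (lt_of_lt_of_le (Nat.mod_lt _ (by norm_num)) hf2)]
      rw [h5]
      have h6 : dgt (nb (f w) (b w) v) i * f w ^ i ≤ w.length + 1 := by
        have h7 := dgt_lt hf0 (nb (f w) (b w) v) i
        calc dgt (nb (f w) (b w) v) i * f w ^ i ≤ f w * f w ^ i := Nat.mul_le_mul_right _ h7.le
          _ = f w ^ (i + 1) := by ring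
          _ ≤ f w ^ b w := Nat.pow_le_pow_right hf0 hi
          _ ≤ w.length + 1 := hw.fb.trans (Nat.le_succ _)
      exact min_eq_left h6
    change min (∑ i ∈ Finset.range (b w), min (dgC (w.length + 1)
        (min 2 (w.length + 1)) i v * min (f w ^ i) (w.length + 1)) (w.length + 1))
        (w.length + 1) = _
    rw [Finset.sum_congr rfl hterm, ← blkNum_eq]
    have h8 := blkNum_lt hf0 (nb (f w) (b w) v)
    have h9 := hw.fb
    exact min_eq_left (by omega)

/-- multiplication and inverse modulo `f`; the argument of the inverse need not be reduced -/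
theorem mulmod_FL (hf : FL β Empty (fun w _ => f w)) :
    ∃ g : List β → ℕ → ℕ → ℕ, FL β (Fin 2) (fun w z => g w (z 0) (z 1)) ∧
      ∀ w, (f w).Prime → f w ^ 2 ≤ w.length → ∀ x y : ZMod (f w),
        g w x.val y.val = (x * y).val := by
  refine ⟨fun w x y => min (x * y) (w.length + 1) % f w,
    FL.mod (FL.mul (FL.proj 0) (FL.proj 1)) (FL.ofEmpty hf), ?_⟩
  intro w hpr hff x y
  have hf0 : 0 < f w := hpr.pos
  have : NeZero (f w) := ⟨hf0.ne'⟩
  have h1 : x.val * y.val ≤ w.length + 1 := by
    have h2 := ZMod.val_lt x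
    have h3 := ZMod.val_lt y
    calc x.val * y.val ≤ f w * f w := Nat.mul_le_mul h2.le h3.le
      _ = f w ^ 2 := by ring
      _ ≤ w.length + 1 := hff.trans (Nat.le_succ _)
  change min (x.val * y.val) (w.length + 1) % f w = _
  rw [min_eq_left h1, ZMod.val_mul]

open Classical in
theorem invmod_FL (hf : FL β Empty (fun w _ => f w)) :
    ∃ g : List β → ℕ → ℕ, FL β Unit (fun w z => g w (z ())) ∧
      ∀ w, (f w).Prime → f w ^ 2 ≤ w.length → ∀ c ≤ w.length + 1,
        g w c = ((c : ZMod (f w))⁻¹).val := by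
  refine ⟨fun w c => if c % f w = 0 then 0 else
    (fun y => min (y * (c % f w)) (w.length + 1) % f w)^[f w - 1 - 1] 1, ?_, ?_⟩
  · have hF : FL β Unit (fun w _ => f w) := FL.ofEmpty hf
    have hF' : FL β (Unit ⊕ Unit) (fun w _ => f w) := FL.ofEmpty hf
    have hz : FL β Unit (fun _ z => z ()) := FL.proj _
    refine FL.ite (R := fun w z => z () % f w = 0) (isL_eq (FL.mod hz hF) FL.zero) FL.zero ?_
    exact FL.iter1 (F := fun w y z => min (y * (z () % f w)) (w.length + 1) % f w)
      (FL.mod (FL.mul (FL.proj _) (FL.mod (FL.proj _) hF')) hF') FL.one hF.pred.pred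
  · intro w hpr hff c _
    have hf0 : 0 < f w := hpr.pos
    have hf2 : 2 ≤ f w := hpr.two_le
    have : NeZero (f w) := ⟨hf0.ne'⟩
    have : Fact (f w).Prime := ⟨hpr⟩
    change (if c % f w = 0 then 0 else
      (fun y => min (y * (c % f w)) (w.length + 1) % f w)^[f w - 1 - 1] 1) = _
    by_cases h0 : c % f w = 0
    · have h1 : (c : ZMod (f w)) = 0 :=
        (ZMod.natCast_eq_zero_iff c (f w)).2 (Nat.dvd_of_mod_eq_zero h0)
      rw [if_pos h0, h1, inv_zero, ZMod.val_zero]
    · rw [if_neg h0]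
      have key : ∀ n : ℕ, (fun y => min (y * (c % f w)) (w.length + 1) % f w)^[n] 1 =
          ((c : ZMod (f w)) ^ n).val := by
        intro n
        induction n with
        | zero =>
          rw [Function.iterate_zero, id, pow_zero, ZMod.val_one'' (by omega)]
        | succ n ih =>
          rw [Function.iterate_succ_apply', ih]
          have h2 : ((c : ZMod (f w)) ^ n).val * (c % f w) ≤ w.length + 1 := by
            have h3 := ZMod.val_lt ((c : ZMod (f w)) ^ n)
            have h4 := Nat.mod_lt c hf0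
            calc ((c : ZMod (f w)) ^ n).val * (c % f w) ≤ f w * f w :=
                  Nat.mul_le_mul h3.le h4.le
              _ = f w ^ 2 := by ring
              _ ≤ w.length + 1 := hff.trans (Nat.le_succ _)
          rw [min_eq_left h2, pow_succ, ZMod.val_mul, ZMod.val_natCast]
      rw [key]
      have h1 : (c : ZMod (f w)) ≠ 0 := by
        intro h
        apply h0
        exact Nat.mod_eq_zero_of_dvd ((ZMod.natCast_eq_zero_iff c (f w)).1 h)
      have h5 : (c : ZMod (f w)) ^ (f w - 1 - 1) * (c : ZMod (f w)) = 1 := by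
        rw [← pow_succ, Nat.sub_add_cancel (by omega : 1 ≤ f w - 1)]
        exact ZMod.pow_card_sub_one_eq_one h1
      rw [eq_inv_of_mul_eq_one_left h5]

/-- reading a block of bits -/
theorem read_FL (hf : FL β Empty (fun w _ => f w)) (hb : FL β Empty (fun w _ => b w)) :
    ∃ g : List β → ℕ → ℕ, FL β Unit (fun w z => g w (z ())) ∧
      ∀ w, LongFor w.length (f w) (b w) → ∀ v < 2 ^ b w,
        g w (blkNum (nb (f w) (b w) v)) = v := by
  refine ⟨fun w X => min (∑ i ∈ Finset.range (b w), min (dgC (w.length + 1) (f w) i X *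
    min (min 2 (w.length + 1) ^ i) (w.length + 1)) (w.length + 1)) (w.length + 1), ?_, ?_⟩
  · refine FL.sum (d := fun w z i => min (dgC (w.length + 1) (f w) i (z ()) *
      min (min 2 (w.length + 1) ^ i) (w.length + 1)) (w.length + 1)) ?_ (FL.ofEmpty hb)
    have hF : FL β (Unit ⊕ Unit) (fun w _ => f w) := FL.ofEmpty hf
    have hI : FL β (Unit ⊕ Unit) (fun _ z => z (Sum.inr ())) := FL.proj _
    have hv : FL β (Unit ⊕ Unit) (fun _ z => z (Sum.inl ())) := FL.proj _
    refine FL.congr (FL.mul (dgC_FL hF hI hv) (FL.pow (FL.const 2) hI)) ?_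
    intro w z _
    simp only [Function.comp_apply]
    omega
  · intro w hw v hv
    have hpr := hw.pr
    have hf0 : 0 < f w := hpr.pos
    have hf2 : 2 ≤ f w := hpr.two_le
    have : NeZero (f w) := ⟨hf0.ne'⟩
    have hlen : 2 ≤ w.length + 1 := by
      have h1 := hw.ff
      nlinarith
    have hvl : v ≤ w.length + 1 := by
      have h1 : 2 ^ b w ≤ 2 ^ (2 * b w) := Nat.pow_le_pow_right (by norm_num) (by omega)
      have h2 := hw.bb
      omega
    have hterm : ∀ i ∈ Finset.range (b w), min (dgC (w.length + 1) (f w) i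
        (blkNum (nb (f w) (b w) v)) * min (min 2 (w.length + 1) ^ i) (w.length + 1))
        (w.length + 1) = v / 2 ^ i % 2 * 2 ^ i := by
      intro i hi
      rw [Finset.mem_range] at hi
      have h1 : f w ^ i ≤ w.length + 1 :=
        ((Nat.pow_le_pow_right hf0 hi.le).trans hw.fb).trans (Nat.le_succ _)
      have h2 : 2 ^ i ≤ w.length + 1 :=
        ((Nat.pow_le_pow_right (by norm_num) (by omega : i ≤ 2 * b w)).trans hw.bb).trans
          (Nat.le_succ _)
      rw [min_eq_left hlen, dgC_eq h1, digit_blkNum hf0 _ i hi, min_eq_left h2]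
      have h5 : (nb (f w) (b w) v ⟨i, hi⟩).val = v / 2 ^ i % 2 := by
        rw [nb, ZMod.val_natCast, Nat.mod_eq_of_lt
          (lt_of_lt_of_le (Nat.mod_lt _ (by norm_num)) hf2)]
      rw [h5]
      have h6 : v / 2 ^ i % 2 * 2 ^ i ≤ v :=
        (Nat.mul_le_mul_right _ (Nat.mod_le _ _)).trans (Nat.div_mul_le_self _ _)
      exact min_eq_left (h6.trans hvl)
    change min (∑ i ∈ Finset.range (b w), min (dgC (w.length + 1) (f w) i
      (blkNum (nb (f w) (b w) v)) * min (min 2 (w.length + 1) ^ i) (w.length + 1))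
      (w.length + 1)) (w.length + 1) = _
    rw [Finset.sum_congr rfl hterm, sum_bits v _ hv]
    exact min_eq_left hvl

end Ops

end Pool.Agent.Helper17.UL
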